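import Pool.Agent.Q236.HB.LevAdd

/-!
# Every level after the addition of few lines

Definitions (`Pool/Agent/Results/MP_a08d0a_co/SmoothedLevel.lean`):

* `Simple a B`: no two of the lines `y = a i x + B i` coincide and no three pass through a common
  point; `level a B k x`: the height of the `(k+1)`-st lowest line above `x`;
* `psi a B k`: the number of abscissae near which the `k`-level does not follow a single line, i.e.
  the number of vertices of the `k`-level.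

`Fin.castAdd N i` is `i : Fin n` as an element of `Fin (n + N)`: the new family of `n + N` lines
begins with the `n` given lines.
-/

set_option autoImplicit false

open Finset

namespace Pool.Agent.Results.MP_a08d0a_co.FewAdditions

open Pool.Agent.Results.MP_a08d0a_co.SmoothedLevel (Simple psi)

/-- Let `n` lines be given, no two parallel and no three concurrent, and `k < n`.
1. For every `d` one can add at most `d` lines, again without parallel lines and without three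
   concurrent lines, so that the `k`-level of the new family has at most
   `58 n ((k + 1) / (d + 1)) ^ (1/3) + 8 (n + d)` vertices.
2. In particular, for every `0 < δ ≤ 1` one can add at most `δ (k + 1)` lines so that the `k`-level
   of the new family has at most `74 n / δ ^ (1/3)` vertices. -/
theorem result : ∀ (n : ℕ) (a B : Fin n → ℝ), Function.Injective a → Simple a B → ∀ k : ℕ, k < n →
    (∀ d : ℕ, ∃ N ≤ d, ∃ a' B' : Fin (n + N) → ℝ, (∀ i, a' (Fin.castAdd N i) = a i) ∧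
      (∀ i, B' (Fin.castAdd N i) = B i) ∧ Function.Injective a' ∧ Simple a' B' ∧
      psi a' B' k ≠ ⊤ ∧ ((psi a' B' k).toNat : ℝ) ≤
        58 * n * (((k : ℝ) + 1) / (d + 1)) ^ (1 / 3 : ℝ) + 8 * (n + d)) ∧
    (∀ δ : ℝ, 0 < δ → δ ≤ 1 → ∃ N : ℕ, (N : ℝ) ≤ δ * (k + 1) ∧
      ∃ a' B' : Fin (n + N) → ℝ, (∀ i, a' (Fin.castAdd N i) = a i) ∧
      (∀ i, B' (Fin.castAdd N i) = B i) ∧ Function.Injective a' ∧ Simple a' B' ∧
      psi a' B' k ≠ ⊤ ∧ ((psi a' B' k).toNat : ℝ) ≤ 74 * n * (1 / δ) ^ (1 / 3 : ℝ)) := by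
  intro n a B ha hS k hk
  have root : ∀ C N X : ℝ, 0 < C → 0 ≤ N → 0 ≤ X → N ^ 3 ≤ C ^ 3 * X → N ≤ C * X ^ (1 / 3 : ℝ) := by
    intro C N X hC hN hX h
    have e : (C * X ^ (1 / 3 : ℝ)) ^ 3 = C ^ 3 * X := by
      rw [mul_pow, ← Real.rpow_natCast (X ^ (1 / 3 : ℝ)), ← Real.rpow_mul hX]
      norm_num
    rw [← e] at h
    exact le_of_pow_le_pow_left₀ (by norm_num) (by positivity) h
  have toNat_le : ∀ {x : ℕ∞} {N : ℕ}, x ≤ N → x ≠ ⊤ ∧ x.toNat ≤ N := by
    intro x N h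
    have hx : x ≠ ⊤ := ne_top_of_le_ne_top (ENat.natCast_ne_top N) h
    refine ⟨hx, ?_⟩
    have h1 : ((x.toNat : ℕ) : ℕ∞) ≤ N := by rw [ENat.natCast_toNat hx]; exact h
    exact_mod_cast h1
  have hn : (0 : ℝ) < n := by exact_mod_cast (by omega : 0 < n)
  have part1 : ∀ d : ℕ, ∃ N ≤ d, ∃ a' B' : Fin (n + N) → ℝ,
      (∀ i, a' (Fin.castAdd N i) = a i) ∧
      (∀ i, B' (Fin.castAdd N i) = B i) ∧ Function.Injective a' ∧ Simple a' B' ∧
      psi a' B' k ≠ ⊤ ∧ ((psi a' B' k).toNat : ℝ) ≤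
        58 * n * (((k : ℝ) + 1) / (d + 1)) ^ (1 / 3 : ℝ) + 8 * (n + d) := by
    intro d
    obtain ⟨N, hN, a', B', h1, h2, h3, h4, F, h5, h6⟩ :=
      Pool.Agent.Q236.HB.lev_add ha hS k d
    obtain ⟨h7, h8⟩ := toNat_le (h5 (by omega))
    refine ⟨N, hN, a', B', h1, h2, h3, h4, h7, ?_⟩
    have hF := root (58 * n) F (((k : ℝ) + 1) / (d + 1)) (by positivity) (Nat.cast_nonneg F)
      (by positivity) (by
        rw [mul_div_assoc', le_div_iff₀ (by positivity), mul_comm]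
        refine h6.trans (le_of_eq ?_)
        ring)
    have h9 : ((psi a' B' k).toNat : ℝ) ≤ F + 8 * ((n : ℝ) + N) := by exact_mod_cast h8
    have h10 : (N : ℝ) ≤ d := by exact_mod_cast hN
    linarith
  refine ⟨part1, ?_⟩
  intro δ h0 h1
  have hk1 : (0 : ℝ) < (k : ℝ) + 1 := by positivity
  have hkn : (k : ℝ) + 1 ≤ n := by exact_mod_cast hk
  obtain ⟨N, hN, a', B', g1, g2, g3, g4, g5, g6⟩ := part1 ⌊δ * ((k : ℝ) + 1)⌋₊
  have hfl : (⌊δ * ((k : ℝ) + 1)⌋₊ : ℝ) ≤ δ * (k + 1) := Nat.floor_le (by positivity)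
  have hfl2 : δ * ((k : ℝ) + 1) ≤ (⌊δ * ((k : ℝ) + 1)⌋₊ : ℝ) + 1 := (Nat.lt_floor_add_one _).le
  refine ⟨N, ?_, a', B', g1, g2, g3, g4, g5, g6.trans ?_⟩
  · have : (N : ℝ) ≤ ⌊δ * ((k : ℝ) + 1)⌋₊ := by exact_mod_cast hN
    linarith
  · have h2 : ((k : ℝ) + 1) / ((⌊δ * ((k : ℝ) + 1)⌋₊ : ℝ) + 1) ≤ 1 / δ := by
      rw [div_le_div_iff₀ (by positivity) h0]
      linarith
    have h3 : (1 : ℝ) ≤ (1 / δ) ^ (1 / 3 : ℝ) :=
      Real.one_le_rpow (by rw [le_div_iff₀ h0]; linarith) (by norm_num)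
    have h4 : 58 * (n : ℝ) * (((k : ℝ) + 1) / ((⌊δ * ((k : ℝ) + 1)⌋₊ : ℝ) + 1)) ^ (1 / 3 : ℝ) ≤
        58 * n * (1 / δ) ^ (1 / 3 : ℝ) := by gcongr
    have h5 : (⌊δ * ((k : ℝ) + 1)⌋₊ : ℝ) ≤ n := by nlinarith
    nlinarith

end Pool.Agent.Results.MP_a08d0a_co.FewAdditions
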