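import Pool.Agent.Q236.HB.MovFin

/-!
# Proportional levels, in particular the halving level, after few deletions

Definitions:

* `Simple a B`: no two of the lines `y = a i x + B i` coincide and no three pass through a common
  point (parallel lines are allowed); `level a B k x`: the height of the `(k+1)`-st lowest line
  above `x`;
* `psi a B k`: the number of abscissae near which the `k`-level does not follow a single line, i.e.
  the number of vertices of the `k`-level (`Pool/Agent/Results/MP_a08d0a_co/SmoothedLevel.lean`),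
* `sub f R`: for a set `R` of indices, the family `f` restricted to `R`, listed in increasing order
  of the indices (`Pool/Agent/Y344/KD/Lines.lean`); `sub a R`, `sub B R` are the slopes and the
  intercepts of the lines with index in `R`.
-/

set_option autoImplicit false

open Finset

namespace Pool.Agent.Results.MP_a08d0a_co.MovingLevels

open Pool.Agent.Results.MP_a08d0a_co.SmoothedLevel (Simple psi)

open Pool.Agent.Y344.KD (sub)

/-- Let `n ≥ 1` lines be given, no two equal and no three concurrent, and `0 < κ < 1`.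
1. For every `d < n` one can delete at most `d` of the lines so that, `m` being the number of the
   remaining lines, the `⌊κ m⌋`-level of the remaining lines has at most
   `648 / min κ (1 - κ) * (n ^ 4 / (d + 1)) ^ (1/3)` vertices.
2. In particular, for every `0 < δ < 1` one can delete at most `δ n` lines so that the `⌊κ m⌋`-level
   of the remaining `m` lines has at most `648 / min κ (1 - κ) * n * (1 / δ) ^ (1/3)` vertices.
For `κ = 1/2` this is the halving level of the remaining lines. -/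
theorem result : ∀ (n : ℕ) (a B : Fin n → ℝ), 0 < n → Simple a B → ∀ κ : ℝ, 0 < κ → κ < 1 →
    (∀ d : ℕ, d < n → ∃ R : Finset (Fin n), n ≤ #R + d ∧
      psi (sub a R) (sub B R) ⌊κ * #R⌋₊ ≠ ⊤ ∧
      ((psi (sub a R) (sub B R) ⌊κ * #R⌋₊).toNat : ℝ) ≤
        648 / min κ (1 - κ) * ((n : ℝ) ^ 4 / (d + 1)) ^ (1 / 3 : ℝ)) ∧
    (∀ δ : ℝ, 0 < δ → δ < 1 → ∃ R : Finset (Fin n), (1 - δ) * n ≤ #R ∧
      psi (sub a R) (sub B R) ⌊κ * #R⌋₊ ≠ ⊤ ∧
      ((psi (sub a R) (sub B R) ⌊κ * #R⌋₊).toNat : ℝ) ≤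
        648 / min κ (1 - κ) * n * (1 / δ) ^ (1 / 3 : ℝ)) := by
  intro n a B hn hS κ hκ0 hκ1
  have hm0 : 0 < min κ (1 - κ) := lt_min hκ0 (by linarith)
  have hm2 : min κ (1 - κ) ≤ 1 / 2 := by
    rcases le_total κ (1 / 2) with h | h
    · exact (min_le_left _ _).trans h
    · exact (min_le_right _ _).trans (by linarith)
  set s : ℕ := ⌈1 / min κ (1 - κ)⌉₊ with hs
  have hs1 : 1 / min κ (1 - κ) ≤ s := Nat.le_ceil _
  have hsκ : 1 ≤ κ * s := by
    have h1 : 1 ≤ min κ (1 - κ) * s := by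
      rw [div_le_iff₀ hm0] at hs1
      linarith
    have h2 : min κ (1 - κ) * s ≤ κ * s :=
      mul_le_mul_of_nonneg_right (min_le_left _ _) (Nat.cast_nonneg _)
    linarith
  have hsκ' : 1 ≤ (1 - κ) * s := by
    have h1 : 1 ≤ min κ (1 - κ) * s := by
      rw [div_le_iff₀ hm0] at hs1
      linarith
    have h2 : min κ (1 - κ) * s ≤ (1 - κ) * s :=
      mul_le_mul_of_nonneg_right (min_le_right _ _) (Nat.cast_nonneg _)
    linarith
  have hs0 : 0 < s := by
    rcases Nat.eq_zero_or_pos s with h | h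
    · rw [h] at hsκ
      norm_num at hsκ
    · exact h
  have hs432 : 432 * (s : ℝ) ≤ 648 / min κ (1 - κ) := by
    have h1 : (s : ℝ) ≤ 1 / min κ (1 - κ) + 1 := (Nat.ceil_lt_add_one (by positivity)).le
    have h2 : 1 ≤ (1 / 2) * (1 / min κ (1 - κ)) := by
      rw [mul_one_div, le_div_iff₀ hm0]
      linarith
    calc 432 * (s : ℝ) ≤ 432 * (3 / 2 * (1 / min κ (1 - κ))) := by linarith
      _ = 648 / min κ (1 - κ) := by ring
  have hstp : Pool.Agent.Q236.HB.Stp (fun m => ⌊κ * m⌋₊) s := by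
    constructor
    · intro x
      have h1 : ⌊κ * (x : ℝ)⌋₊ + 1 = ⌊κ * (x : ℝ) + 1⌋₊ :=
        (Nat.floor_add_one (by positivity)).symm
      rw [h1]
      apply Nat.floor_le_floor
      push_cast
      nlinarith
    · intro x
      obtain ⟨r, hr⟩ : ∃ r, s = r + 1 := ⟨s - 1, by omega⟩
      have hr' : (s : ℝ) = r + 1 := by exact_mod_cast hr
      have h1 : ⌊κ * (x : ℝ)⌋₊ + r = ⌊κ * (x : ℝ) + r⌋₊ :=
        (Nat.floor_add_natCast (by positivity) r).symm
      have h2 : ⌊κ * ((x + s : ℕ) : ℝ)⌋₊ ≤ ⌊κ * (x : ℝ) + r⌋₊ := by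
        apply Nat.floor_le_floor
        push_cast
        nlinarith
      omega
    · intro x y hxy
      apply Nat.floor_le_floor
      have : (x : ℝ) ≤ y := by exact_mod_cast hxy
      gcongr
    · intro x y hxy
      have h1 : ⌊κ * (x : ℝ)⌋₊ + (y - x) = ⌊κ * (x : ℝ) + ((y - x : ℕ) : ℝ)⌋₊ :=
        (Nat.floor_add_natCast (by positivity) (y - x)).symm
      rw [h1]
      apply Nat.floor_le_floor
      rw [Nat.cast_sub hxy]
      have : (x : ℝ) ≤ y := by exact_mod_cast hxy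
      nlinarith
  have hlt : ∀ m : ℕ, 0 < m → ⌊κ * (m : ℝ)⌋₊ < m := by
    intro m hm
    have hm' : (0 : ℝ) < m := by exact_mod_cast hm
    rw [Nat.floor_lt (by positivity)]
    nlinarith
  have root : ∀ C N X : ℝ, 0 < C → 0 ≤ N → 0 ≤ X → N ^ 3 ≤ C ^ 3 * X → N ≤ C * X ^ (1 / 3 : ℝ) := by
    intro C N X hC hN hX h
    have e : (C * X ^ (1 / 3 : ℝ)) ^ 3 = C ^ 3 * X := by
      rw [mul_pow, ← Real.rpow_natCast (X ^ (1 / 3 : ℝ)), ← Real.rpow_mul hX]
      norm_num
    rw [← e] at h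
    exact le_of_pow_le_pow_left₀ (by norm_num) (by positivity) h
  have part1 : ∀ d : ℕ, d < n → ∃ R : Finset (Fin n), n ≤ #R + d ∧
      psi (sub a R) (sub B R) ⌊κ * #R⌋₊ ≠ ⊤ ∧
      ((psi (sub a R) (sub B R) ⌊κ * #R⌋₊).toNat : ℝ) ≤
        648 / min κ (1 - κ) * ((n : ℝ) ^ 4 / (d + 1)) ^ (1 / 3 : ℝ) := by
    intro d hd
    have hκn : ⌊κ * (n : ℝ)⌋₊ ≤ n := (hlt n hn).le
    obtain ⟨R, h1, h2⟩ := Pool.Agent.Q236.HB.mov_levels hS hs0 hstp hκn hd.le
    obtain ⟨h3, h4⟩ := h2 (hlt _ (by omega))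
    refine ⟨R, h1, h3, ?_⟩
    have hsr : (0 : ℝ) < s := by exact_mod_cast hs0
    have h5 := root (432 * s) _ ((n : ℝ) ^ 4 / (d + 1)) (by positivity) (Nat.cast_nonneg _)
      (by positivity) (by
        rw [mul_div_assoc', le_div_iff₀ (by positivity), mul_comm]
        exact h4)
    exact h5.trans (mul_le_mul_of_nonneg_right hs432 (by positivity))
  refine ⟨part1, ?_⟩
  intro δ h0 h1
  have hnR : (0 : ℝ) < n := by exact_mod_cast hn
  obtain ⟨R, g1, g2, g3⟩ := part1 ⌊δ * n⌋₊ (by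
    rw [Nat.floor_lt (by positivity)]
    nlinarith)
  have hfl : (⌊δ * n⌋₊ : ℝ) ≤ δ * n := Nat.floor_le (by positivity)
  have hfl2 : δ * n ≤ (⌊δ * n⌋₊ : ℝ) + 1 := (Nat.lt_floor_add_one _).le
  refine ⟨R, ?_, g2, g3.trans ?_⟩
  · have : (n : ℝ) ≤ #R + ⌊δ * n⌋₊ := by exact_mod_cast g1
    linarith
  · have h8 : (n : ℝ) ^ 4 / ((⌊δ * n⌋₊ : ℝ) + 1) ≤ (n : ℝ) ^ 3 * (1 / δ) := by
      rw [div_le_iff₀ (by positivity)]
      calc (n : ℝ) ^ 4 = (n : ℝ) ^ 3 * (1 / δ) * (δ * n) := by field_simp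
        _ ≤ (n : ℝ) ^ 3 * (1 / δ) * ((⌊δ * n⌋₊ : ℝ) + 1) := by gcongr
    have h9 : ((n : ℝ) ^ 3 * (1 / δ)) ^ (1 / 3 : ℝ) = n * (1 / δ) ^ (1 / 3 : ℝ) := by
      rw [Real.mul_rpow (by positivity) (by positivity), ← Real.rpow_natCast,
        ← Real.rpow_mul hnR.le]
      norm_num
    rw [mul_assoc, ← h9]
    gcongr

end Pool.Agent.Results.MP_a08d0a_co.MovingLevels
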