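import Pool.Agent.Q236.HB.RandMov

/-!
# Proportional levels, in particular the halving level, after random deletions

Definitions:

* `Simple a B`: no two of the lines `y = a i x + B i` coincide and no three pass through a common
  point (parallel lines are allowed); `level a B k x`: the height of the `(k+1)`-st lowest line
  above `x`;
* `psi a B k`: the number of abscissae near which the `k`-level does not follow a single line, i.e.
  the number of vertices of the `k`-level (`Pool/Agent/Results/MP_a08d0a_co/SmoothedLevel.lean`),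
* `sub f R`: for a set `R` of indices, the family `f` restricted to `R`, listed in increasing order
  of the indices (`Pool/Agent/Y344/KD/Lines.lean`); `sub a Dᶜ`, `sub B Dᶜ` are the slopes and the
  intercepts of the lines that remain if those with index in `D` are deleted.

The sums run over the sets `D` of deleted lines, with the weight
`r ^ |D| (1 - r) ^ (n - |D|)`, the probability that `D` is the set of deleted lines if every line is
deleted with probability `r`, independently of the others.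
-/

set_option autoImplicit false

open Finset

namespace Pool.Agent.Results.MP_a08d0a_co.RandomDeletionsMoving

open Pool.Agent.Results.MP_a08d0a_co.SmoothedLevel (Simple psi)

open Pool.Agent.Y344.KD (sub)

/-- Let `n ≥ 1` lines be given, no two equal and no three concurrent, let `0 < κ < 1`, and let every
line be deleted with probability `r ≤ 1/2`, independently of the others. Let `m` be the (random)
number of the remaining lines. Then
1. the expected number of vertices of the `⌊κ m⌋`-level of the remaining lines (counted as `0` if no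
   line remains) is at most `500 (min κ (1 - κ)) ^ (-1/3) n (n / r) ^ (1/6)`,
2. hence it exceeds `t` times this bound with probability at most `1 / t`.
For `κ = 1/2` this is the halving level of the remaining lines. -/
theorem result : ∀ (n : ℕ) (a B : Fin n → ℝ), 0 < n → Simple a B → ∀ κ : ℝ, 0 < κ → κ < 1 →
    ∀ r : ℝ, 0 < r → r ≤ 1 / 2 →
    (∀ D : Finset (Fin n), 0 < #Dᶜ → psi (sub a Dᶜ) (sub B Dᶜ) ⌊κ * #Dᶜ⌋₊ ≠ ⊤) ∧
    ∑ D : Finset (Fin n) with 0 < #Dᶜ,
      r ^ #D * (1 - r) ^ (n - #D) * ((psi (sub a Dᶜ) (sub B Dᶜ) ⌊κ * #Dᶜ⌋₊).toNat : ℝ) ≤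
        500 * (1 / min κ (1 - κ)) ^ (1 / 3 : ℝ) * n * ((n : ℝ) / r) ^ (1 / 6 : ℝ) ∧
    ∀ t : ℝ, 0 < t → ∑ D : Finset (Fin n) with 0 < #Dᶜ ∧
        t * (500 * (1 / min κ (1 - κ)) ^ (1 / 3 : ℝ) * n * ((n : ℝ) / r) ^ (1 / 6 : ℝ)) <
          ((psi (sub a Dᶜ) (sub B Dᶜ) ⌊κ * #Dᶜ⌋₊).toNat : ℝ),
      r ^ #D * (1 - r) ^ (n - #D) ≤ 1 / t := by
  classical
  intro n a B hn hS κ hκ0 hκ1 r hr0 hr
  have hm0 : 0 < min κ (1 - κ) := lt_min hκ0 (by linarith)
  have hm2 : min κ (1 - κ) ≤ 1 / 2 := by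
    rcases le_total κ (1 / 2) with h | h
    · exact (min_le_left _ _).trans h
    · exact (min_le_right _ _).trans (by linarith)
  set s : ℕ := ⌈1 / min κ (1 - κ)⌉₊ with hs
  have hs1 : 1 / min κ (1 - κ) ≤ s := Nat.le_ceil _
  have hsκ : 1 ≤ κ * s := by
    have h1 : 1 ≤ min κ (1 - κ) * s := by
      rw [div_le_iff₀ hm0] at hs1
      linarith
    have h2 : min κ (1 - κ) * s ≤ κ * s :=
      mul_le_mul_of_nonneg_right (min_le_left _ _) (Nat.cast_nonneg _)
    linarith
  have hsκ' : 1 ≤ (1 - κ) * s := by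
    have h1 : 1 ≤ min κ (1 - κ) * s := by
      rw [div_le_iff₀ hm0] at hs1
      linarith
    have h2 : min κ (1 - κ) * s ≤ (1 - κ) * s :=
      mul_le_mul_of_nonneg_right (min_le_right _ _) (Nat.cast_nonneg _)
    linarith
  have hs0 : 0 < s := by
    rcases Nat.eq_zero_or_pos s with h | h
    · rw [h] at hsκ
      norm_num at hsκ
    · exact h
  have hq0 : 0 < 1 / min κ (1 - κ) := by positivity
  have hs3 : 414 * (s : ℝ) ^ (1 / 3 : ℝ) ≤ 500 * (1 / min κ (1 - κ)) ^ (1 / 3 : ℝ) := by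
    have h1 : (s : ℝ) ≤ 1 / min κ (1 - κ) + 1 := (Nat.ceil_lt_add_one (by positivity)).le
    have h2 : 1 ≤ (1 / 2) * (1 / min κ (1 - κ)) := by
      rw [mul_one_div, le_div_iff₀ hm0]
      linarith
    have h3 : (s : ℝ) ≤ (6 / 5) ^ 3 * (1 / min κ (1 - κ)) := by nlinarith
    have h4 : (s : ℝ) ^ (1 / 3 : ℝ) ≤ 6 / 5 * (1 / min κ (1 - κ)) ^ (1 / 3 : ℝ) := by
      calc (s : ℝ) ^ (1 / 3 : ℝ) ≤ ((6 / 5) ^ 3 * (1 / min κ (1 - κ))) ^ (1 / 3 : ℝ) :=
            Real.rpow_le_rpow (by positivity) h3 (by norm_num)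
        _ = 6 / 5 * (1 / min κ (1 - κ)) ^ (1 / 3 : ℝ) := by
            rw [Real.mul_rpow (by norm_num) hq0.le, ← Real.rpow_natCast,
              ← Real.rpow_mul (by norm_num)]
            norm_num
    have h5 : 0 ≤ (1 / min κ (1 - κ)) ^ (1 / 3 : ℝ) := by positivity
    nlinarith
  have hstp : Pool.Agent.Q236.HB.Stp (fun m => ⌊κ * m⌋₊) s := by
    constructor
    · intro x
      have h1 : ⌊κ * (x : ℝ)⌋₊ + 1 = ⌊κ * (x : ℝ) + 1⌋₊ :=
        (Nat.floor_add_one (by positivity)).symm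
      rw [h1]
      apply Nat.floor_le_floor
      push_cast
      nlinarith
    · intro x
      obtain ⟨r, hr⟩ : ∃ r, s = r + 1 := ⟨s - 1, by omega⟩
      have hr' : (s : ℝ) = r + 1 := by exact_mod_cast hr
      have h1 : ⌊κ * (x : ℝ)⌋₊ + r = ⌊κ * (x : ℝ) + r⌋₊ :=
        (Nat.floor_add_natCast (by positivity) r).symm
      have h2 : ⌊κ * ((x + s : ℕ) : ℝ)⌋₊ ≤ ⌊κ * (x : ℝ) + r⌋₊ := by
        apply Nat.floor_le_floor
        push_cast
        nlinarith
      omega
    · intro x y hxy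
      apply Nat.floor_le_floor
      have : (x : ℝ) ≤ y := by exact_mod_cast hxy
      gcongr
    · intro x y hxy
      have h1 : ⌊κ * (x : ℝ)⌋₊ + (y - x) = ⌊κ * (x : ℝ) + ((y - x : ℕ) : ℝ)⌋₊ :=
        (Nat.floor_add_natCast (by positivity) (y - x)).symm
      rw [h1]
      apply Nat.floor_le_floor
      rw [Nat.cast_sub hxy]
      have : (x : ℝ) ≤ y := by exact_mod_cast hxy
      nlinarith
  have hlt : ∀ m : ℕ, 0 < m → ⌊κ * (m : ℝ)⌋₊ < m := by
    intro m hm
    have hm' : (0 : ℝ) < m := by exact_mod_cast hm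
    rw [Nat.floor_lt (by positivity)]
    nlinarith
  have hiff : ∀ m : ℕ, ⌊κ * (m : ℝ)⌋₊ < m ↔ 0 < m := fun m => ⟨fun h => by omega, hlt m⟩
  obtain ⟨h1, h2⟩ := Pool.Agent.Q236.HB.random_moving hS hs0 hstp hr0 hr hn
  simp only [hiff] at h1 h2
  have hn0 : (0 : ℝ) < n := by exact_mod_cast hn
  have hr1 : 0 ≤ 1 - r := by linarith
  have hw0 : ∀ D : Finset (Fin n), 0 ≤ r ^ #D * (1 - r) ^ (n - #D) := fun D => by positivity
  set E : ℝ := 500 * (1 / min κ (1 - κ)) ^ (1 / 3 : ℝ) * n * ((n : ℝ) / r) ^ (1 / 6 : ℝ) with hE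
  have hE0 : 0 < E := by positivity
  have h2' : ∑ D : Finset (Fin n) with 0 < #Dᶜ,
      r ^ #D * (1 - r) ^ (n - #D) * ((psi (sub a Dᶜ) (sub B Dᶜ) ⌊κ * #Dᶜ⌋₊).toNat : ℝ) ≤ E := by
    refine h2.trans ?_
    rw [hE]
    gcongr
  refine ⟨h1, h2', ?_⟩
  intro t ht
  set S := ∑ D : Finset (Fin n) with 0 < #Dᶜ ∧ t * E <
    ((psi (sub a Dᶜ) (sub B Dᶜ) ⌊κ * #Dᶜ⌋₊).toNat : ℝ), r ^ #D * (1 - r) ^ (n - #D) with hSdef
  have h3 : ∑ D : Finset (Fin n) with 0 < #Dᶜ ∧ t * E <
      ((psi (sub a Dᶜ) (sub B Dᶜ) ⌊κ * #Dᶜ⌋₊).toNat : ℝ),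
      r ^ #D * (1 - r) ^ (n - #D) * ((psi (sub a Dᶜ) (sub B Dᶜ) ⌊κ * #Dᶜ⌋₊).toNat : ℝ) ≤ E := by
    refine le_trans (sum_le_sum_of_subset_of_nonneg ?_ ?_) h2'
    · intro D hD
      rw [mem_filter] at hD ⊢
      exact ⟨hD.1, hD.2.1⟩
    · intro D _ _
      exact mul_nonneg (hw0 D) (Nat.cast_nonneg _)
  have h4 : S * (t * E) ≤ E := by
    refine le_trans ?_ h3
    rw [hSdef, sum_mul]
    apply sum_le_sum
    intro D hD
    rw [mem_filter] at hD
    exact mul_le_mul_of_nonneg_left hD.2.2.le (hw0 D)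
  rw [le_div_iff₀ ht]
  have h5 : S * t * E ≤ 1 * E := by
    rw [one_mul, mul_assoc]
    exact h4
  exact le_of_mul_le_mul_right h5 hE0

end Pool.Agent.Results.MP_a08d0a_co.RandomDeletionsMoving
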